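import Pool.Agent.PSV.StmtsG

/-! Squad PSV, row GTP: sums and products of power series of G-type with explicit constants. -/

set_option autoImplicit false

noncomputable section

namespace Pool.Agent.PSV.H25

open Polynomial Pool.Agent.MT100

theorem mono {B B' : ℕ} {f : PowerSeries ℚ} (h : B ≤ B') (hf : GTC B f) : GTC B' f := by
  intro k
  obtain ⟨h1, D, hD, hD', hDz⟩ := hf k
  exact ⟨h1.trans (pow_le_pow_left₀ (Nat.cast_nonneg _) (by exact_mod_cast h) _), D, hD,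
    hD'.trans (Nat.pow_le_pow_left h _), hDz⟩

theorem gadd {B : ℕ} {f g : PowerSeries ℚ} (hB : 2 ≤ B) (hf : GTC B f) (hg : GTC B g) :
    GTC (B ^ 4) (f + g) := by
  intro k
  obtain ⟨h1, D, hD, hD', hDz⟩ := hf k
  obtain ⟨h2, E, hE, hE', hEz⟩ := hg k
  have hBq : (2 : ℚ) ≤ B := by exact_mod_cast hB
  refine ⟨?_, D * E, Nat.mul_pos hD hE, ?_, fun i hi => ?_⟩
  · rw [map_add]
    have h3 : (B : ℚ) ^ (k + 1) + (B : ℚ) ^ (k + 1) ≤ (B : ℚ) ^ (k + 2) := by
      rw [pow_succ (B : ℚ) (k + 1), ← mul_two]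
      exact mul_le_mul_of_nonneg_left hBq (by positivity)
    have h4 : (B : ℚ) ^ (k + 2) ≤ (((B ^ 4 : ℕ)) : ℚ) ^ (k + 1) := by
      push_cast
      rw [← pow_mul]
      exact pow_le_pow_right₀ (by linarith) (by omega)
    exact (abs_add_le _ _).trans ((add_le_add h1 h2).trans (h3.trans h4))
  · calc D * E ≤ B ^ (k + 1) * B ^ (k + 1) := Nat.mul_le_mul hD' hE'
      _ = B ^ (2 * (k + 1)) := by rw [← pow_add]; congr 1; ring
      _ ≤ B ^ (4 * (k + 1)) := Nat.pow_le_pow_right (by omega) (by omega)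
      _ = (B ^ 4) ^ (k + 1) := pow_mul _ _ _
  · obtain ⟨a, ha⟩ := hDz i hi
    obtain ⟨b, hb⟩ := hEz i hi
    refine ⟨E * a + D * b, ?_⟩
    rw [map_add]
    push_cast
    rw [← ha, ← hb]
    ring

theorem gmul {B : ℕ} {f g : PowerSeries ℚ} (hB : 2 ≤ B) (hf : GTC B f) (hg : GTC B g) :
    GTC (B ^ 4) (f * g) := by
  intro k
  obtain ⟨h1, D, hD, hD', hDz⟩ := hf k
  obtain ⟨h2, E, hE, hE', hEz⟩ := hg k
  have hBq : (2 : ℚ) ≤ B := by exact_mod_cast hB
  refine ⟨?_, D * E, Nat.mul_pos hD hE, ?_, fun i hi => ?_⟩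
  · rw [PowerSeries.coeff_mul]
    have h3 : ∀ p ∈ Finset.HasAntidiagonal.antidiagonal k,
        |PowerSeries.coeff p.1 f * PowerSeries.coeff p.2 g| ≤ (B : ℚ) ^ (k + 2) := by
      intro p hp
      have hp' : p.1 + p.2 = k := Finset.HasAntidiagonal.mem_antidiagonal.1 hp
      rw [abs_mul]
      calc |PowerSeries.coeff p.1 f| * |PowerSeries.coeff p.2 g|
          ≤ (B : ℚ) ^ (p.1 + 1) * (B : ℚ) ^ (p.2 + 1) :=
            mul_le_mul (hf p.1).1 (hg p.2).1 (abs_nonneg _) (by positivity)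
        _ = (B : ℚ) ^ (k + 2) := by
            rw [← pow_add]
            congr 1
            omega
    have h6 : |∑ p ∈ Finset.HasAntidiagonal.antidiagonal k,
        PowerSeries.coeff p.1 f * PowerSeries.coeff p.2 g| ≤ ((k : ℚ) + 1) * (B : ℚ) ^ (k + 2) := by
      refine (Finset.abs_sum_le_sum_abs _ _).trans ((Finset.sum_le_sum h3).trans ?_)
      rw [Finset.sum_const, Finset.Nat.card_antidiagonal, nsmul_eq_mul]
      push_cast
      exact le_rfl
    have h7 : ((k : ℚ) + 1) ≤ (B : ℚ) ^ (k + 1) := by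
      have h8 : k + 1 < 2 ^ (k + 1) := Nat.lt_two_pow_self
      have h9 : k + 1 ≤ B ^ (k + 1) := h8.le.trans (Nat.pow_le_pow_left hB _)
      exact_mod_cast h9
    refine h6.trans ?_
    calc ((k : ℚ) + 1) * (B : ℚ) ^ (k + 2) ≤ (B : ℚ) ^ (k + 1) * (B : ℚ) ^ (k + 2) :=
          mul_le_mul_of_nonneg_right h7 (by positivity)
      _ = (B : ℚ) ^ (2 * k + 3) := by rw [← pow_add]; congr 1; ring
      _ ≤ (B : ℚ) ^ (4 * (k + 1)) := pow_le_pow_right₀ (by linarith) (by omega)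
      _ = (((B ^ 4 : ℕ)) : ℚ) ^ (k + 1) := by push_cast; rw [← pow_mul]
  · calc D * E ≤ B ^ (k + 1) * B ^ (k + 1) := Nat.mul_le_mul hD' hE'
      _ = B ^ (2 * (k + 1)) := by rw [← pow_add]; congr 1; ring
      _ ≤ B ^ (4 * (k + 1)) := Nat.pow_le_pow_right (by omega) (by omega)
      _ = (B ^ 4) ^ (k + 1) := pow_mul _ _ _
  · rw [PowerSeries.coeff_mul, Finset.mul_sum]
    have h3 : ∀ p ∈ Finset.HasAntidiagonal.antidiagonal i, ∃ z : ℤ, ((D * E : ℕ) : ℚ) *
        (PowerSeries.coeff p.1 f * PowerSeries.coeff p.2 g) = z := by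
      intro p hp
      have hp' : p.1 + p.2 = i := Finset.HasAntidiagonal.mem_antidiagonal.1 hp
      obtain ⟨a, ha⟩ := hDz p.1 (by omega)
      obtain ⟨b, hb⟩ := hEz p.2 (by omega)
      refine ⟨a * b, ?_⟩
      push_cast
      rw [← ha, ← hb]
      ring
    choose! z hz using h3
    refine ⟨∑ p ∈ Finset.HasAntidiagonal.antidiagonal i, z p, ?_⟩
    rw [Finset.sum_congr rfl hz]
    push_cast
    rfl

theorem gconst {B : ℕ} {r : ℚ} (hB : 1 ≤ B) (hr : RB B r) : GTC B (PowerSeries.C r) := by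
  intro k
  have hBk : B ≤ B ^ (k + 1) := by
    calc B = B ^ 1 := (pow_one _).symm
      _ ≤ _ := Nat.pow_le_pow_right hB (by omega)
  refine ⟨?_, r.den, r.den_pos, hr.1.trans hBk, fun i _ => ?_⟩
  · rw [PowerSeries.coeff_C]
    split_ifs with hk
    · exact hr.2.trans (by exact_mod_cast hBk)
    · rw [abs_zero]
      positivity
  · rw [PowerSeries.coeff_C]
    split_ifs with hk
    · exact ⟨r.num, Rat.den_mul_eq_num r⟩
    · exact ⟨0, by simp⟩

theorem gint {B : ℕ} {z : ℤ} (hB : 1 ≤ B) (hz : |z| ≤ (B : ℤ)) :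
    GTC B (PowerSeries.C (z : ℚ)) := by
  refine gconst hB ⟨?_, ?_⟩
  · exact hB
  · exact_mod_cast hz

theorem gpoly {n B : ℕ} {p : ℤ[X]} (hB : 1 ≤ B) (hp : PB n B p) : GTC B (zp p) := by
  have hc : ∀ k, PowerSeries.coeff k (zp p) = ((p.coeff k : ℤ) : ℚ) := by
    intro k
    unfold zp zq
    rw [Polynomial.coeff_coe, Polynomial.coeff_map]
    rfl
  intro k
  have hBk : B ≤ B ^ (k + 1) := by
    calc B = B ^ 1 := (pow_one _).symm
      _ ≤ _ := Nat.pow_le_pow_right hB (by omega)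
  refine ⟨?_, 1, one_pos, hB.trans hBk, fun i _ => ⟨p.coeff i, ?_⟩⟩
  · rw [hc]
    have h1 := hp.2 k
    have h2 : (|((p.coeff k : ℤ) : ℚ)|) ≤ (B : ℚ) := by exact_mod_cast h1
    exact h2.trans (by exact_mod_cast hBk)
  · rw [hc, Nat.cast_one, one_mul]

theorem gfin {ι : Type} {B : ℕ} {f : ι → PowerSeries ℚ} (hB : 2 ≤ B) (hf : ∀ i, GTC B (f i))
    (s : Finset ι) : GTC (B ^ 4 ^ s.card) (∑ i ∈ s, f i) ∧
      GTC (B ^ 4 ^ s.card) (∏ i ∈ s, f i) := by
  classical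
  induction s using Finset.induction_on with
  | empty =>
    have h0 := gint (B := B) (z := 0) (by omega) (by simp)
    have h1 := gint (B := B) (z := 1) (by omega) (by
      rw [abs_one]
      exact_mod_cast (by omega : 1 ≤ B))
    rw [Int.cast_zero, map_zero] at h0
    rw [Int.cast_one, map_one] at h1
    rw [Finset.sum_empty, Finset.prod_empty, Finset.card_empty, pow_zero, pow_one]
    exact ⟨h0, h1⟩
  | insert a s ha ih =>
    rw [Finset.sum_insert ha, Finset.prod_insert ha, Finset.card_insert_of_notMem ha,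
      pow_succ 4 s.card, pow_mul]
    have hB1 : B ≤ B ^ 4 ^ s.card := by
      calc B = B ^ 1 := (pow_one _).symm
        _ ≤ _ := Nat.pow_le_pow_right (by omega) (Nat.one_le_pow _ _ (by norm_num))
    have h1 := mono hB1 (hf a)
    exact ⟨gadd (hB.trans hB1) h1 ih.1, gmul (hB.trans hB1) h1 ih.2⟩

/-- **GTP** -/
theorem gtp : GtpStmt := by
  refine ⟨fun B f g hB hf hg => ⟨gmul hB hf hg, gadd hB hf hg⟩, fun n => ⟨4 ^ n, ?_⟩,
    fun n => ⟨1, ?_⟩, ⟨1, ?_⟩⟩
  · intro ι _ B f hB hn hf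
    have h := gfin hB hf Finset.univ
    have hle : B ^ 4 ^ (Finset.univ : Finset ι).card ≤ B ^ 4 ^ n :=
      Nat.pow_le_pow_right (by omega) (Nat.pow_le_pow_right (by norm_num) hn)
    exact ⟨mono hle h.1, mono hle h.2⟩
  · intro B p hB hp
    rw [pow_one]
    exact gpoly (by omega) hp
  · intro B r hB hr
    rw [pow_one]
    exact gconst (by omega) hr

end Pool.Agent.PSV.H25
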